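import Pool.Agent.TH978.SF.Row

/-!
# Expansion of sections along a nodal section, leading coefficients

`S` is a graded domain over `F` (pieces `A m`), `h0`, `h1` of degree `k`; `E`, `E0` are ring maps
to the Hahn series with Laurent polynomial coefficients (the tube and its restriction to `Y = 0`).
-/

set_option autoImplicit false
set_option linter.unusedSectionVars false

namespace Pool.Agent.TH978.SF

open Pool.Agent.TH603.EL

section compl
variable {F : Type*} [Field F] {S : Type*} [CommRing S] [IsDomain S] [Algebra F S]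

/-- the degree `m` part of the ideal of `h0` -/
def Pm (A : ℕ → Submodule F S) (k : ℕ) (h0 : S) (m : ℕ) : Submodule F S :=
  if k ≤ m then (A (m - k)).map (LinearMap.mulRight F h0) else ⊥

/-- what is used of the grading -/
structure Gr (A : ℕ → Submodule F S) (k : ℕ) (h0 h1 : S) : Prop where
  kpos : 0 < k
  fin : ∀ m, FiniteDimensional F (A m)
  mul0 : ∀ m, ∀ x ∈ A m, x * h0 ∈ A (m + k)
  mul1 : ∀ m, ∀ x ∈ A m, x * h1 ∈ A (m + k)
  div0 : ∀ m, ∀ x, x * h0 ∈ A m → x = 0 ∨ (k ≤ m ∧ x ∈ A (m - k))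
  ne0 : h0 ≠ 0

variable {A : ℕ → Submodule F S} {k : ℕ} {h0 h1 : S}

theorem Gr.Pm_le (hA : Gr A k h0 h1) (m : ℕ) : Pm A k h0 m ≤ A m := by
  unfold Pm
  split_ifs with h
  · rintro _ ⟨x, hx, rfl⟩
    have := hA.mul0 _ x hx
    rwa [Nat.sub_add_cancel h] at this
  · exact bot_le

theorem Gr.mem_Pm (hA : Gr A k h0 h1) {m : ℕ} {s : S} (hs : s ∈ A m) (hd : h0 ∣ s) :
    s ∈ Pm A k h0 m := by
  obtain ⟨x, rfl⟩ := hd
  rw [mul_comm] at hs ⊢
  rcases hA.div0 m x hs with h | ⟨h1, h2⟩
  · rw [h, zero_mul]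
    exact Submodule.zero_mem _
  · unfold Pm
    rw [if_pos h1]
    exact ⟨x, h2, rfl⟩

theorem exists_compl (A P : Submodule F S) (h : P ≤ A) :
    ∃ W : Submodule F S, W ≤ A ∧ W ⊓ P = ⊥ ∧ W ⊔ P = A := by
  obtain ⟨Q, hQ⟩ := Submodule.exists_isCompl (P.submoduleOf A)
  refine ⟨Q.map A.subtype, ?_, ?_, ?_⟩
  · rintro _ ⟨x, -, rfl⟩
    exact x.2
  · rw [eq_bot_iff]
    rintro _ ⟨⟨x, hx, rfl⟩, hxP⟩
    have h1 : x ∈ P.submoduleOf A ⊓ Q := ⟨hxP, hx⟩
    rw [hQ.inf_eq_bot] at h1
    rw [Submodule.mem_bot] at h1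
    rw [h1]
    exact Submodule.zero_mem _
  · apply le_antisymm
    · refine sup_le ?_ h
      rintro _ ⟨x, -, rfl⟩
      exact x.2
    · intro x hx
      have h1 : (⟨x, hx⟩ : A) ∈ P.submoduleOf A ⊔ Q := by
        rw [hQ.sup_eq_top]
        trivial
      obtain ⟨y, hy, z, hz, hyz⟩ := Submodule.mem_sup.1 h1
      rw [Submodule.mem_sup]
      refine ⟨z, ⟨z, hz, rfl⟩, y, hy, ?_⟩
      have := congrArg (fun u : A => (u : S)) hyz
      simp only [Submodule.coe_add] at this
      rw [add_comm]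
      exact this

/-- a complement of the degree `m` part of the ideal of `h0` -/
noncomputable def Wm (hA : Gr A k h0 h1) (m : ℕ) : Submodule F S :=
  (exists_compl (A m) (Pm A k h0 m) (hA.Pm_le m)).choose

theorem Wm_le (hA : Gr A k h0 h1) (m : ℕ) : Wm hA m ≤ A m :=
  (exists_compl (A m) (Pm A k h0 m) (hA.Pm_le m)).choose_spec.1

theorem Wm_inf (hA : Gr A k h0 h1) (m : ℕ) : Wm hA m ⊓ Pm A k h0 m = ⊥ :=
  (exists_compl (A m) (Pm A k h0 m) (hA.Pm_le m)).choose_spec.2.1

theorem Wm_sup (hA : Gr A k h0 h1) (m : ℕ) : Wm hA m ⊔ Pm A k h0 m = A m :=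
  (exists_compl (A m) (Pm A k h0 m) (hA.Pm_le m)).choose_spec.2.2

theorem Wm_dvd (hA : Gr A k h0 h1) {m : ℕ} {s : S} (hs : s ∈ Wm hA m) (hd : h0 ∣ s) : s = 0 := by
  have h2 : s ∈ Wm hA m ⊓ Pm A k h0 m := ⟨hs, hA.mem_Pm (Wm_le hA m hs) hd⟩
  rw [Wm_inf] at h2
  exact h2

theorem Wm_fin (hA : Gr A k h0 h1) (m : ℕ) : FiniteDimensional F (Wm hA m) :=
  have := hA.fin m
  Submodule.finiteDimensional_of_le (Wm_le hA m)

theorem finrank_step (hA : Gr A k h0 h1) (m : ℕ) :
    Module.finrank F (A m) = Module.finrank F (Wm hA m) + Module.finrank F (Pm A k h0 m) := by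
  have := hA.fin m
  have := Wm_fin hA m
  have : FiniteDimensional F (Pm A k h0 m) := Submodule.finiteDimensional_of_le (hA.Pm_le m)
  have h := Submodule.finrank_sup_add_finrank_inf_eq (Wm hA m) (Pm A k h0 m)
  rw [Wm_inf, Wm_sup, finrank_bot, add_zero] at h
  exact h

theorem finrank_Pm (hA : Gr A k h0 h1) {m : ℕ} (hm : k ≤ m) :
    Module.finrank F (Pm A k h0 m) = Module.finrank F (A (m - k)) := by
  unfold Pm
  rw [if_pos hm]
  refine (LinearEquiv.finrank_eq (Submodule.equivMapOfInjective _ ?_ _)).symm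
  intro x y hxy
  simp only [LinearMap.mulRight_apply] at hxy
  exact mul_right_cancel₀ hA.ne0 hxy

/-- `dim A d` is the sum of the dimensions of the complements -/
theorem finrank_sum (hA : Gr A k h0 h1) : ∀ d : ℕ, Module.finrank F (A d) =
    ∑ j ∈ Finset.range (d / k + 1), Module.finrank F (Wm hA (d - j * k)) := by
  intro d
  induction d using Nat.strong_induction_on with
  | _ d ih =>
    by_cases hd : k ≤ d
    · have hk := hA.kpos
      have h2 : d / k = (d - k) / k + 1 := Nat.div_eq_sub_div hk hd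
      rw [finrank_step hA d, finrank_Pm hA hd, ih (d - k) (by omega), h2,
        Finset.sum_range_succ' _ ((d - k) / k + 1), add_comm]
      have e0 : Module.finrank F (Wm hA (d - 0 * k)) = Module.finrank F (Wm hA d) := by
        rw [zero_mul, Nat.sub_zero]
      rw [e0]
      congr 1
      refine Finset.sum_congr rfl fun j _ => ?_
      have e : d - k - j * k = d - (j + 1) * k := by
        rw [Nat.sub_sub]
        congr 1
        ring
      rw [e]
    · have h2 : d / k = 0 := Nat.div_eq_of_lt (not_le.1 hd)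
      rw [h2, zero_add, Finset.sum_range_one, zero_mul, Nat.sub_zero, finrank_step hA d]
      unfold Pm
      rw [if_neg hd, finrank_bot, add_zero]

end compl

end Pool.Agent.TH978.SF
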