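import Pool.Agent.TH978.SF.Core

/-!
# The leading coefficient of every element of the span of the sections
-/

set_option autoImplicit false
set_option linter.unusedSectionVars false

namespace Pool.Agent.TH978.SF

open Pool.Agent.TH603.EL

variable {F : Type} [Field F] {S : Type*} [CommRing S] [IsDomain S] [Algebra F S]
  {A : ℕ → Submodule F S} {k : ℕ} {h0 h1 : S}

/-- the tube `E` near the nodal section, and its restriction `E0` to `Y = 0` -/
structure Tub (A : ℕ → Submodule F S) (h0 h1 : S) (Nn : ℕ → ℝ) (τ sg : ℝ)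
    (E E0 : S →+* HR F) : Prop where
  t0 : 0 < τ
  t1 : τ < 1
  alg : ∀ c : F, E (algebraMap F S c) = incl (HahnSeries.C c)
  alg0 : ∀ c : F, E0 (algebraMap F S c) = incl (HahnSeries.C c)
  edge : ∀ s, Edg τ (E0 s)
  near : ∀ s, Low (E s - E0 s) sg
  bez : ∀ m, ∀ s ∈ A m, ¬ h0 ∣ s → ∃ al be : ℕ, (al + be : ℝ) ≤ Nn m ∧
    cf (E0 s) (τ * al) al 0 ≠ 0 ∧ cf (E0 s) ((1 - τ) * be) (-be) 0 ≠ 0
  lowH : Low (E h0 - tz F 1 0 0 * E h1) (1 + sg)
  leadH : ∃ c : F, c ≠ 0 ∧
    (E h0 - tz F 1 0 0 * E h1).coeff (1 + sg) = AddMonoidAlgebra.single ((0, 1) : ℤ × ℤ) c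

/-- the exponents of row `j` -/
def Row (Nn : ℕ → ℝ) (τ : ℝ) (k d j : ℕ) : Set (ℤ × ℤ) :=
  {m | m.2 = (j : ℤ) ∧ -(Nn (d - j * k) * τ) ≤ m.1 ∧ (m.1 : ℝ) ≤ Nn (d - j * k) * (1 - τ)}

/-- the exponents of all rows -/
def TT (Nn : ℕ → ℝ) (τ : ℝ) (k d : ℕ) : Set (ℤ × ℤ) :=
  ⋃ j ∈ Finset.range (d / k + 1), Row Nn τ k d j

/-- a basis of the complement -/
noncomputable def bW (hA : Gr A k h0 h1) (m : ℕ) (i : Fin (Module.finrank F (Wm hA m))) : S :=
  have := Wm_fin hA m
  (Module.finBasis F (Wm hA m) i : S)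

theorem bW_mem (hA : Gr A k h0 h1) (m : ℕ) (i : Fin (Module.finrank F (Wm hA m))) :
    bW hA m i ∈ Wm hA m := by
  unfold bW
  exact Subtype.mem _

theorem bW_sum (hA : Gr A k h0 h1) (m : ℕ) (c : Fin (Module.finrank F (Wm hA m)) → F) :
    ∑ i, algebraMap F S (c i) * bW hA m i ∈ Wm hA m := by
  refine Submodule.sum_mem _ fun i _ => ?_
  rw [← Algebra.smul_def]
  exact Submodule.smul_mem _ _ (bW_mem hA m i)

theorem bW_indep (hA : Gr A k h0 h1) (m : ℕ) (c : Fin (Module.finrank F (Wm hA m)) → F)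
    (h : ∑ i, algebraMap F S (c i) * bW hA m i = 0) : ∀ i, c i = 0 := by
  have := Wm_fin hA m
  have h1 : ∑ i, c i • (Module.finBasis F (Wm hA m) i) = 0 := by
    apply Subtype.ext
    rw [Submodule.coe_sum, Submodule.coe_zero, ← h]
    refine Finset.sum_congr rfl fun i _ => ?_
    rw [Submodule.coe_smul, Algebra.smul_def]
    rfl
  exact Fintype.linearIndependent_iff.1 (Module.finBasis F (Wm hA m)).linearIndependent c h1

/-- one summand of the expansion -/
noncomputable def term (hA : Gr A k h0 h1) (E : S →+* HR F) (d : ℕ)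
    (c : ∀ j : ℕ, Fin (Module.finrank F (Wm hA (d - j * k))) → HK F) (j : ℕ) : HR F :=
  (∑ i, incl (c j i) * E (bW hA (d - j * k) i)) * (E h0 - tz F 1 0 0 * E h1) ^ j

variable {Nn : ℕ → ℝ} {τ sg : ℝ} {E E0 : S →+* HR F}

theorem term_lead (hA : Gr A k h0 h1) (hT : Tub A h0 h1 Nn τ sg E E0) {d : ℕ}
    (hsg : ∀ m ≤ d, Nn m < sg)
    (c : ∀ j : ℕ, Fin (Module.finrank F (Wm hA (d - j * k))) → HK F) (j : ℕ)
    (hc : ∃ i, c j i ≠ 0) : ∃ o, LT (term hA E d c j) o (Row Nn τ k d j) := by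
  classical
  obtain ⟨I, hI⟩ : ∃ I : Finset (Fin (Module.finrank F (Wm hA (d - j * k)))),
    I = Finset.univ.filter (fun i => c j i ≠ 0) := ⟨_, rfl⟩
  have hIne : I.Nonempty := by
    obtain ⟨i, hi⟩ := hc
    exact ⟨i, by rw [hI, Finset.mem_filter]; exact ⟨Finset.mem_univ _, hi⟩⟩
  obtain ⟨i0, hi0, hmin⟩ := Finset.exists_min_image I (fun i => (c j i).order) hIne
  obtain ⟨b, hb⟩ : ∃ b, b = (c j i0).order := ⟨_, rfl⟩
  have hlow : ∀ i, Low (c j i) b := by
    intro i a ha
    by_cases hi : c j i = 0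
    · rw [hi]; rfl
    · apply HahnSeries.coeff_eq_zero_of_lt_order
      refine ha.trans_le ?_
      rw [hb]
      exact hmin i (by rw [hI, Finset.mem_filter]; exact ⟨Finset.mem_univ _, hi⟩)
  have hi0' : (c j i0).coeff b ≠ 0 := by
    rw [hb]
    intro h
    rw [hI, Finset.mem_filter] at hi0
    exact hi0.2 (HahnSeries.coeff_order_eq_zero.1 h)
  have hmem := bW_sum hA (d - j * k) fun i => (c j i).coeff b
  have hnd : ¬ h0 ∣ ∑ i, algebraMap F S ((c j i).coeff b) * bW hA (d - j * k) i := by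
    intro hd
    exact hi0' (bW_indep hA _ _ (Wm_dvd hA hmem hd) i0)
  obtain ⟨o, -, -, ho⟩ := row_lead hT.t0 hT.t1 (hsg (d - j * k) (Nat.sub_le _ _)) E0 E hT.alg0
    hT.edge hT.near (bW hA (d - j * k)) (c j) hlow
    (hT.bez _ _ (Wm_le hA _ hmem) hnd)
  obtain ⟨q, hq, hq1⟩ := hT.leadH
  refine ⟨o + j * (1 + sg), (ho.mul_pow hT.lowH hq hq1 j).mono ?_⟩
  rintro m ⟨h2, h3, h4⟩
  refine ⟨?_, h3, h4⟩
  simp only at h2
  omega

theorem term_zero (hA : Gr A k h0 h1) (E : S →+* HR F) (d : ℕ)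
    (c : ∀ j : ℕ, Fin (Module.finrank F (Wm hA (d - j * k))) → HK F) (j : ℕ)
    (hc : ∀ i, c j i = 0) : term hA E d c j = 0 := by
  unfold term
  rw [Finset.sum_eq_zero, zero_mul]
  intro i _
  rw [hc i, map_zero, zero_mul]

/-- **No cancellation between the rows.** -/
theorem sum_lead (hA : Gr A k h0 h1) (hT : Tub A h0 h1 Nn τ sg E E0) {d : ℕ}
    (hsg : ∀ m ≤ d, Nn m < sg)
    (c : ∀ j : ℕ, Fin (Module.finrank F (Wm hA (d - j * k))) → HK F)
    (hc : ∃ j ∈ Finset.range (d / k + 1), ∃ i, c j i ≠ 0) :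
    ∃ o, LT (∑ j ∈ Finset.range (d / k + 1), term hA E d c j) o (TT Nn τ k d) := by
  refine LT.sum (T := fun j => Row Nn τ k d j) (fun j _ m hm => hm.1) (fun j _ => ?_) ?_
  · by_cases h : ∃ i, c j i ≠ 0
    · exact Or.inr (term_lead hA hT hsg c j h)
    · push Not at h
      exact Or.inl (term_zero hA E d c j h)
  · obtain ⟨j, hj, hi⟩ := hc
    obtain ⟨o, ho⟩ := term_lead hA hT hsg c j hi
    exact ⟨j, hj, ho.ne_zero⟩

/-- the module structure over the constants -/
noncomputable abbrev modHR (F : Type) [Field F] : Module (HK F) (HR F) :=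
  Module.compHom (HR F) (incl : HK F →+* HR F)

section span
attribute [local instance] modHR

theorem smul_def' (c : HK F) (x : HR F) : c • x = incl c * x := rfl

/-- the span of the sections of degree `d` -/
noncomputable def SP (A : ℕ → Submodule F S) (E : S →+* HR F) (d : ℕ) :
    Submodule (HK F) (HR F) := Submodule.span (HK F) (E '' (A d : Set S))

theorem SP_mulH (hA : Gr A k h0 h1) (E : S →+* HR F) {m : ℕ} {x : HR F} (hx : x ∈ SP A E m) :
    x * (E h0 - tz F 1 0 0 * E h1) ∈ SP A E (m + k) := by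
  unfold SP at hx ⊢
  induction hx using Submodule.span_induction with
  | mem x hx =>
    obtain ⟨s, hs, rfl⟩ := hx
    have e1 : E s * (E h0 - tz F 1 0 0 * E h1) =
        E (s * h0) - (HahnSeries.single (1 : ℝ) (1 : F) : HK F) • E (s * h1) := by
      rw [smul_def', map_mul, map_mul]
      have : incl (HahnSeries.single (1 : ℝ) (1 : F) : HK F) = tz F 1 0 0 := by
        apply cf_ext
        intro a i j
        rw [cf_incl]
        unfold cf
        by_cases ha : a = 1
        · subst ha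
          rw [coeff_tz, HahnSeries.coeff_single_same, AddMonoidAlgebra.coeff_single,
            Finsupp.single_apply]
          congr 1
          rw [Prod.ext_iff]
          simp only [eq_iff_iff]
          constructor <;> rintro ⟨h1, h2⟩ <;> exact ⟨h1.symm, h2.symm⟩
        · rw [HahnSeries.coeff_single_of_ne ha]
          unfold tz
          rw [HahnSeries.coeff_single_of_ne ha]
          simp
      rw [this]
      ring
    rw [e1]
    exact Submodule.sub_mem _ (Submodule.subset_span ⟨_, hA.mul0 _ _ hs, rfl⟩)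
      (Submodule.smul_mem _ _ (Submodule.subset_span ⟨_, hA.mul1 _ _ hs, rfl⟩))
  | zero => rw [zero_mul]; exact Submodule.zero_mem _
  | add x y _ _ hx hy => rw [add_mul]; exact Submodule.add_mem _ hx hy
  | smul c x _ hx =>
    rw [smul_def', mul_assoc, ← smul_def']
    exact Submodule.smul_mem _ _ hx

theorem SP_mulH_pow (hA : Gr A k h0 h1) (E : S →+* HR F) {m : ℕ} {x : HR F} (hx : x ∈ SP A E m)
    (j : ℕ) : x * (E h0 - tz F 1 0 0 * E h1) ^ j ∈ SP A E (m + j * k) := by
  induction j with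
  | zero => simpa using hx
  | succ j ih =>
    have := SP_mulH hA E ih
    rw [pow_succ, ← mul_assoc]
    have e : m + (j + 1) * k = m + j * k + k := by ring
    rw [e]
    exact this

/-- the index set of the expansion -/
abbrev Idx (hA : Gr A k h0 h1) (d : ℕ) : Type :=
  Σ j : Fin (d / k + 1), Fin (Module.finrank F (Wm hA (d - (j : ℕ) * k)))

/-- the vectors of the expansion -/
noncomputable def vec (hA : Gr A k h0 h1) (E : S →+* HR F) (d : ℕ) (p : Idx hA d) : HR F :=
  E (bW hA (d - (p.1 : ℕ) * k) p.2) * (E h0 - tz F 1 0 0 * E h1) ^ (p.1 : ℕ)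

theorem vec_mem (hA : Gr A k h0 h1) (E : S →+* HR F) (d : ℕ) (p : Idx hA d) :
    vec hA E d p ∈ SP A E d := by
  have h1 : E (bW hA (d - (p.1 : ℕ) * k) p.2) ∈ SP A E (d - (p.1 : ℕ) * k) :=
    Submodule.subset_span ⟨_, Wm_le hA _ (bW_mem hA _ _), rfl⟩
  have h2 := SP_mulH_pow hA E h1 (p.1 : ℕ)
  have h3 : (p.1 : ℕ) * k ≤ d := by
    have := p.1.2
    exact (Nat.mul_le_mul_right k (Nat.lt_succ_iff.1 this)).trans (Nat.div_mul_le_self d k)
  rw [Nat.sub_add_cancel h3] at h2
  exact h2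

theorem vec_sum (hA : Gr A k h0 h1) (E : S →+* HR F) (d : ℕ) (g : Idx hA d → HK F) :
    ∑ p, g p • vec hA E d p = ∑ j ∈ Finset.range (d / k + 1), term hA E d
      (fun j i => if hj : j < d / k + 1 then g ⟨⟨j, hj⟩, i⟩ else 0) j := by
  rw [Fintype.sum_sigma, Finset.sum_range]
  refine Finset.sum_congr rfl fun j _ => ?_
  unfold term
  rw [Finset.sum_mul]
  refine Finset.sum_congr rfl fun i _ => ?_
  have e : (if hj : (j : ℕ) < d / k + 1 then g ⟨⟨(j : ℕ), hj⟩, i⟩ else 0) = g ⟨j, i⟩ := dif_pos j.2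
  beta_reduce
  rw [e, smul_def']
  unfold vec
  rw [mul_assoc]

theorem vec_indep (hA : Gr A k h0 h1) (hT : Tub A h0 h1 Nn τ sg E E0) {d : ℕ}
    (hsg : ∀ m ≤ d, Nn m < sg) : LinearIndependent (HK F) (vec hA E d) := by
  rw [Fintype.linearIndependent_iff]
  intro g hg
  by_contra hne
  push Not at hne
  obtain ⟨⟨j, i⟩, hp⟩ := hne
  rw [vec_sum] at hg
  obtain ⟨o, ho⟩ := sum_lead hA hT hsg
    (fun j i => if hj : j < d / k + 1 then g ⟨⟨j, hj⟩, i⟩ else 0)
    ⟨j, Finset.mem_range.2 j.2, i, by rw [dif_pos j.2]; exact hp⟩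
  exact ho.ne_zero hg

theorem card_Idx (hA : Gr A k h0 h1) (d : ℕ) :
    Fintype.card (Idx hA d) = Module.finrank F (A d) := by
  rw [Fintype.card_sigma, finrank_sum hA d, Finset.sum_range]
  exact Finset.sum_congr rfl fun j _ => Fintype.card_fin _

/-- the image of a basis of `A d` spans -/
theorem SP_eq (hT : Tub A h0 h1 Nn τ sg E E0) (d : ℕ) {κ : Type*} [Fintype κ]
    (a : Module.Basis κ F (A d)) : SP A E d = Submodule.span (HK F) (Set.range fun l => E (a l)) := by
  apply le_antisymm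
  · refine Submodule.span_le.2 ?_
    rintro _ ⟨s, hs, rfl⟩
    have h1 : s = ∑ l, (a.repr ⟨s, hs⟩ l) • (a l : S) := by
      have := congrArg (fun u : A d => (u : S)) (a.sum_repr ⟨s, hs⟩)
      simp only [Submodule.coe_sum, Submodule.coe_smul] at this
      exact this.symm
    rw [h1, map_sum]
    refine Submodule.sum_mem _ fun l _ => ?_
    rw [Algebra.smul_def, map_mul, hT.alg, ← smul_def']
    exact Submodule.smul_mem _ _ (Submodule.subset_span ⟨l, rfl⟩)
  · refine Submodule.span_le.2 ?_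
    rintro _ ⟨l, rfl⟩
    exact Submodule.subset_span ⟨_, (a l).2, rfl⟩

/-- **Dimension of the span of the sections.** -/
theorem finrank_SP (hA : Gr A k h0 h1) (hT : Tub A h0 h1 Nn τ sg E E0) {d : ℕ}
    (hsg : ∀ m ≤ d, Nn m < sg) : Module.Finite (HK F) (SP A E d) ∧
    Module.finrank (HK F) (SP A E d) = Module.finrank F (A d) ∧
    SP A E d = Submodule.span (HK F) (Set.range (vec hA E d)) := by
  have := hA.fin d
  have hfin : Module.Finite (HK F) (SP A E d) := by
    rw [SP_eq hT d (Module.finBasis F (A d))]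
    exact Module.Finite.span_of_finite (HK F) (Set.finite_range _)
  have hle : Module.finrank (HK F) (SP A E d) ≤ Module.finrank F (A d) := by
    rw [SP_eq hT d (Module.finBasis F (A d))]
    have := finrank_range_le_card (R := HK F) (fun l => E (Module.finBasis F (A d) l))
    rw [Fintype.card_fin] at this
    exact this
  have hsub : Submodule.span (HK F) (Set.range (vec hA E d)) ≤ SP A E d := by
    refine Submodule.span_le.2 ?_
    rintro _ ⟨p, rfl⟩
    exact vec_mem hA E d p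
  have hcard := finrank_span_eq_card (vec_indep hA hT hsg (d := d))
  rw [card_Idx] at hcard
  have heq : Submodule.span (HK F) (Set.range (vec hA E d)) = SP A E d :=
    Submodule.eq_of_le_of_finrank_le hsub (by rw [hcard]; exact hle)
  exact ⟨hfin, by rw [← heq, hcard], heq.symm⟩

/-- **Every nonzero element of the span of the sections of degree `d` has its leading coefficient
supported in the triangle.** -/
theorem SP_lead (hA : Gr A k h0 h1) (hT : Tub A h0 h1 Nn τ sg E E0) {d : ℕ}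
    (hsg : ∀ m ≤ d, Nn m < sg) {f : HR F} (hf : f ∈ SP A E d) (hne : f ≠ 0) :
    ∃ o, LT f o (TT Nn τ k d) := by
  rw [(finrank_SP hA hT hsg).2.2] at hf
  obtain ⟨g, hg⟩ := (Submodule.mem_span_range_iff_exists_fun (HK F)).1 hf
  have hgne : ∃ p, g p ≠ 0 := by
    by_contra h
    push Not at h
    apply hne
    rw [← hg]
    exact Finset.sum_eq_zero fun p _ => by rw [h p, zero_smul]
  obtain ⟨⟨j, i⟩, hp⟩ := hgne
  rw [vec_sum] at hg
  rw [← hg]
  exact sum_lead hA hT hsg _ ⟨j, Finset.mem_range.2 j.2, i, by rw [dif_pos j.2]; exact hp⟩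

/-- the image of a basis of `A d` is independent -/
theorem basis_indep (hA : Gr A k h0 h1) (hT : Tub A h0 h1 Nn τ sg E E0) {d : ℕ}
    (hsg : ∀ m ≤ d, Nn m < sg) {κ : Type*} [Fintype κ] (a : Module.Basis κ F (A d)) :
    LinearIndependent (HK F) (fun l => E (a l)) := by
  rw [linearIndependent_iff_card_eq_finrank_span, Set.finrank, ← SP_eq hT d a,
    (finrank_SP hA hT hsg).2.1, Module.finrank_eq_card_basis a]

end span

end Pool.Agent.TH978.SF
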