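import Pool.Agent.TH603.EL.Low

/-!
# Slices, leading coefficients of sums of rows
-/

set_option autoImplicit false

namespace Pool.Agent.TH978.SF

open Pool.Agent.TH603.EL

variable {F : Type} [Field F]

/-- the coefficient functional of `z ^ i * Y ^ j` -/
def cfm (F : Type) [Field F] (m : ℤ × ℤ) : Lau F →+ F where
  toFun f := f.coeff m
  map_zero' := by simp
  map_add' f g := by simp

/-- the coefficient of `z ^ i * Y ^ j` as a Hahn series -/
noncomputable def sl (x : HR F) (m : ℤ × ℤ) : HK F := x.map (cfm F m)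

theorem sl_coeff (x : HR F) (m : ℤ × ℤ) (a : ℝ) : (sl x m).coeff a = (x.coeff a).coeff m := rfl

theorem sl_add (x y : HR F) (m : ℤ × ℤ) : sl (x + y) m = sl x m + sl y m := by
  ext a
  simp [sl_coeff]

theorem sl_zero (m : ℤ × ℤ) : sl (0 : HR F) m = 0 := by
  ext a
  simp [sl_coeff]

theorem sl_sum {κ : Type*} (s : Finset κ) (f : κ → HR F) (m : ℤ × ℤ) :
    sl (∑ k ∈ s, f k) m = ∑ k ∈ s, sl (f k) m := by
  classical
  induction s using Finset.induction_on with
  | empty => simp [sl_zero]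
  | insert a s ha ih => rw [Finset.sum_insert ha, Finset.sum_insert ha, sl_add, ih]

theorem incl_coeff (c : HK F) (a : ℝ) :
    (incl c).coeff a = AddMonoidAlgebra.single (0 : ℤ × ℤ) (c.coeff a) := by
  ext ⟨i, j⟩
  have := cf_incl c a i j
  unfold cf at this
  rw [this, AddMonoidAlgebra.coeff_single, Finsupp.single_apply]
  have h : ((0 : ℤ × ℤ) = (i, j)) ↔ (i = 0 ∧ j = 0) := by
    rw [Prod.ext_iff]
    simp only [Prod.fst_zero, Prod.snd_zero]
    constructor <;> rintro ⟨h1, h2⟩ <;> exact ⟨h1.symm, h2.symm⟩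
  simp [h]

theorem sl_incl_mul (c : HK F) (x : HR F) (m : ℤ × ℤ) : sl (incl c * x) m = c * sl x m := by
  ext a
  rw [sl_coeff]
  have hs1 : (incl c).support ⊆ c.support := by
    intro b hb hc
    apply hb
    rw [incl_coeff, hc]
    simp
  have hs2 : (sl x m).support ⊆ x.support := by
    intro b hb hx
    apply hb
    rw [sl_coeff, hx]
    simp
  rw [HahnSeries.coeff_mul_left' c.isPWO_support hs1,
    HahnSeries.coeff_mul_right' x.isPWO_support hs2, AddMonoidAlgebra.coeff_sum,
    Finsupp.coe_finsetSum, Finset.sum_apply]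
  refine Finset.sum_congr rfl fun p _ => ?_
  rw [incl_coeff, sl_coeff]
  exact AddMonoidAlgebra.coeff_single_zero_mul _ _ _

theorem low_iff_sl {x : HR F} {b : ℝ} : Low x b ↔ ∀ m, Low (sl x m) b := by
  constructor
  · intro h m a ha
    rw [sl_coeff, h a ha]
    simp
  · intro h a ha
    ext m
    have := h m a ha
    rw [sl_coeff] at this
    rw [this]
    simp

/-- `o` is the order of `x` and the leading coefficient is supported in `T` -/
structure LT (x : HR F) (o : ℝ) (T : Set (ℤ × ℤ)) : Prop where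
  low : Low x o
  ne : x.coeff o ≠ 0
  supp : ∀ m, (x.coeff o).coeff m ≠ 0 → m ∈ T

theorem LT.ne_zero {x : HR F} {o : ℝ} {T : Set (ℤ × ℤ)} (h : LT x o T) : x ≠ 0 := by
  rintro rfl
  exact h.ne rfl

theorem LT.mono {x : HR F} {o : ℝ} {T T' : Set (ℤ × ℤ)} (h : LT x o T) (hT : T ⊆ T') :
    LT x o T' := ⟨h.low, h.ne, fun m hm => hT (h.supp m hm)⟩

/-- sums of rows -/
theorem LT.sum {J : Finset ℕ} {x : ℕ → HR F} {T : ℕ → Set (ℤ × ℤ)}
    (hT : ∀ j ∈ J, ∀ m ∈ T j, m.2 = (j : ℤ))
    (hx : ∀ j ∈ J, x j = 0 ∨ ∃ o, LT (x j) o (T j)) (hne : ∃ j ∈ J, x j ≠ 0) :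
    ∃ o, LT (∑ j ∈ J, x j) o (⋃ j ∈ J, T j) := by
  classical
  obtain ⟨J', hJ'⟩ : ∃ J', J' = J.filter (fun j => x j ≠ 0) := ⟨_, rfl⟩
  have hx' : ∀ j, ∃ o, j ∈ J' → LT (x j) o (T j) := by
    intro j
    by_cases hj : j ∈ J'
    · rw [hJ', Finset.mem_filter] at hj
      obtain ⟨o, ho⟩ := (hx j hj.1).resolve_left hj.2
      exact ⟨o, fun _ => ho⟩
    · exact ⟨0, fun h => absurd h hj⟩
  choose o ho using hx'
  have hJne : J'.Nonempty := by
    obtain ⟨j, hj, hxj⟩ := hne
    exact ⟨j, by rw [hJ', Finset.mem_filter]; exact ⟨hj, hxj⟩⟩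
  obtain ⟨j0, hj0, hmin⟩ := Finset.exists_min_image J' o hJne
  have hsum : ∀ (a : ℝ) (m : ℤ × ℤ), ((∑ j ∈ J, x j).coeff a).coeff m =
      ∑ j ∈ J', ((x j).coeff a).coeff m := by
    intro a m
    rw [HahnSeries.coeff_sum, AddMonoidAlgebra.coeff_sum, Finsupp.coe_finsetSum, Finset.sum_apply]
    rw [hJ', Finset.sum_filter_of_ne]
    intro j _ hj h0
    apply hj
    rw [h0]
    simp
  refine ⟨o j0, ?_, ?_, ?_⟩
  · intro a ha
    ext m
    rw [hsum, AddMonoidAlgebra.coeff_zero, Finsupp.coe_zero, Pi.zero_apply]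
    refine Finset.sum_eq_zero fun j hj => ?_
    rw [(ho j hj).low a (ha.trans_le (hmin j hj))]
    simp
  · obtain ⟨m, hm⟩ : ∃ m, ((x j0).coeff (o j0)).coeff m ≠ 0 := by
      by_contra h
      push Not at h
      apply (ho j0 hj0).ne
      ext m
      rw [h m]
      simp
    intro h
    have h1 := hsum (o j0) m
    rw [h, AddMonoidAlgebra.coeff_zero, Finsupp.coe_zero, Pi.zero_apply,
      Finset.sum_eq_single j0] at h1
    · exact hm h1.symm
    · intro j hj hne'
      by_contra hc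
      have hlt : ¬ o j0 < o j := by
        intro hlt
        apply hc
        rw [(ho j hj).low _ hlt]
        simp
      have heq : o j = o j0 := le_antisymm (not_lt.1 hlt) (hmin j hj)
      have h2 := (ho j hj).supp m (by rw [heq]; exact hc)
      have h3 := (ho j0 hj0).supp m hm
      have hj' : j ∈ J := by rw [hJ', Finset.mem_filter] at hj; exact hj.1
      have hj0' : j0 ∈ J := by rw [hJ', Finset.mem_filter] at hj0; exact hj0.1
      have e1 := hT j hj' m h2
      have e2 := hT j0 hj0' m h3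
      apply hne'
      have : (j : ℤ) = j0 := by rw [← e1, ← e2]
      exact_mod_cast this
    · intro h2; exact absurd hj0 h2
  · intro m hm
    rw [hsum] at hm
    obtain ⟨j, hj, hj1⟩ := Finset.exists_ne_zero_of_sum_ne_zero hm
    have hlt : ¬ o j0 < o j := by
      intro hlt
      apply hj1
      rw [(ho j hj).low _ hlt]
      simp
    have heq : o j = o j0 := le_antisymm (not_lt.1 hlt) (hmin j hj)
    have h2 := (ho j hj).supp m (by rw [heq]; exact hj1)
    have hj' : j ∈ J := by rw [hJ', Finset.mem_filter] at hj; exact hj.1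
    exact Set.mem_biUnion hj' h2

end Pool.Agent.TH978.SF
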