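import Pool.Agent.TH978.SF.Lead

/-!
# One row: the leading coefficient of a combination of sections not divisible by `h0`
-/

set_option autoImplicit false

namespace Pool.Agent.TH978.SF

open Pool.Agent.TH603.EL

variable {F : Type} [Field F]

/-- the slices of `E0 s` start at the two edges -/
def Edg (τ : ℝ) (x : HR F) : Prop :=
  ∀ a i j, cf x a i j ≠ 0 → j = 0 ∧ τ * i ≤ a ∧ -((1 - τ) * i) ≤ a

theorem Edg.low {τ : ℝ} {x : HR F} (h : Edg τ x) (i j : ℤ) :
    Low (sl x (i, j)) (τ * i) := by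
  intro a ha
  rw [sl_coeff]
  by_contra hc
  have := (h a i j hc).2.1
  linarith

theorem Edg.low' {τ : ℝ} {x : HR F} (h : Edg τ x) (i j : ℤ) :
    Low (sl x (i, j)) (-((1 - τ) * i)) := by
  intro a ha
  rw [sl_coeff]
  by_contra hc
  have := (h a i j hc).2.2
  linarith

theorem Edg.zero_of {τ : ℝ} {x : HR F} (h : Edg τ x) {i j : ℤ} (hj : j ≠ 0) :
    sl x (i, j) = 0 := by
  ext a
  rw [sl_coeff]
  by_contra hc
  exact hj (h a i j hc).1

section row
variable {ι : Type*} [Fintype ι] {S : Type*} [CommRing S] [Algebra F S]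

/-- **The exponent bound for one row.** -/
theorem row_lead {τ sg N b : ℝ} (h0 : 0 < τ) (h1 : τ < 1) (hN : N < sg)
    (E0 E : S →+* HR F) (hE0 : ∀ c : F, E0 (algebraMap F S c) = incl (HahnSeries.C c))
    (hedge : ∀ s, Edg τ (E0 s)) (hnear : ∀ s, Low (E s - E0 s) sg)
    (w : ι → S) (c : ι → HK F) (hc : ∀ i, Low (c i) b)
    (hbez : ∃ al be : ℕ, (al + be : ℝ) ≤ N ∧
      cf (E0 (∑ i, algebraMap F S ((c i).coeff b) * w i)) (τ * al) al 0 ≠ 0 ∧
      cf (E0 (∑ i, algebraMap F S ((c i).coeff b) * w i)) ((1 - τ) * be) (-be) 0 ≠ 0) :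
    ∃ o, b ≤ o ∧ o ≤ b + N ∧ LT (∑ i, incl (c i) * E (w i)) o
      {m | m.2 = 0 ∧ -(N * τ) ≤ m.1 ∧ (m.1 : ℝ) ≤ N * (1 - τ)} := by
  classical
  obtain ⟨al, be, hab, hal, hbe⟩ := hbez
  obtain ⟨g0, hg0⟩ : ∃ g0, g0 = ∑ i, incl (c i) * E0 (w i) := ⟨_, rfl⟩
  have hsl : ∀ m, sl g0 m = ∑ i, c i * sl (E0 (w i)) m := by
    intro m
    rw [hg0, sl_sum]
    exact Finset.sum_congr rfl fun i _ => sl_incl_mul _ _ _
  -- lower bounds
  have hlow1 : ∀ i j : ℤ, Low (sl g0 (i, j)) (b + τ * i) := by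
    intro i j
    rw [hsl]
    exact Low.sum _ _ fun l _ => (hc l).mul ((hedge (w l)).low i j)
  have hlow2 : ∀ i j : ℤ, Low (sl g0 (i, j)) (b + -((1 - τ) * i)) := by
    intro i j
    rw [hsl]
    exact Low.sum _ _ fun l _ => (hc l).mul ((hedge (w l)).low' i j)
  have hzero : ∀ i j : ℤ, j ≠ 0 → sl g0 (i, j) = 0 := by
    intro i j hj
    rw [hsl]
    exact Finset.sum_eq_zero fun l _ => by rw [(hedge (w l)).zero_of hj, mul_zero]
  -- the value at an edge
  have hgb : E0 (∑ i, algebraMap F S ((c i).coeff b) * w i) =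
      ∑ i, incl (HahnSeries.C ((c i).coeff b)) * E0 (w i) := by
    rw [map_sum]
    exact Finset.sum_congr rfl fun i _ => by rw [map_mul, hE0]
  have hslb : ∀ m, sl (E0 (∑ i, algebraMap F S ((c i).coeff b) * w i)) m =
      ∑ i, HahnSeries.C ((c i).coeff b) * sl (E0 (w i)) m := by
    intro m
    rw [hgb, sl_sum]
    exact Finset.sum_congr rfl fun i _ => sl_incl_mul _ _ _
  have hval : ∀ (m : ℤ × ℤ) (e : ℝ), (∀ l, Low (sl (E0 (w l)) m) e) →
      (sl g0 m).coeff (b + e) =
        (sl (E0 (∑ i, algebraMap F S ((c i).coeff b) * w i)) m).coeff e := by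
    intro m e he
    rw [hsl, hslb, HahnSeries.coeff_sum, HahnSeries.coeff_sum]
    refine Finset.sum_congr rfl fun l _ => ?_
    rw [(hc l).coeff_mul (he l), HahnSeries.C_mul_eq_smul, HahnSeries.coeff_smul, smul_eq_mul]
  have hA : (sl g0 ((al : ℤ), 0)).coeff (b + τ * al) ≠ 0 := by
    have h2 := hval ((al : ℤ), 0) (τ * al) fun l => by
      have := (hedge (w l)).low (al : ℤ) 0
      simpa using this
    rw [h2, sl_coeff]
    exact hal
  have hB : (sl g0 (-(be : ℤ), 0)).coeff (b + (1 - τ) * be) ≠ 0 := by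
    have h2 := hval (-(be : ℤ), 0) ((1 - τ) * be) fun l => by
      have := (hedge (w l)).low' (-(be : ℤ)) 0
      have e : -((1 - τ) * ((-(be : ℤ) : ℤ) : ℝ)) = (1 - τ) * be := by push_cast; ring
      rwa [e] at this
    rw [h2, sl_coeff]
    exact hbe
  have hg0ne : g0 ≠ 0 := by
    intro h
    apply hA
    rw [h, sl_zero]
    rfl
  have hlowo : Low g0 g0.order := fun a ha => HahnSeries.coeff_eq_zero_of_lt_order ha
  have hne : g0.coeff g0.order ≠ 0 := by
    intro h
    exact hg0ne (HahnSeries.coeff_order_eq_zero.1 h)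
  have ho1 : g0.order ≤ b + τ * al := by
    by_contra h
    push Not at h
    apply hA
    rw [sl_coeff, hlowo _ h]
    simp
  have ho2 : g0.order ≤ b + (1 - τ) * be := by
    by_contra h
    push Not at h
    apply hB
    rw [sl_coeff, hlowo _ h]
    simp
  have hal0 : (0 : ℝ) ≤ al := Nat.cast_nonneg _
  have hbe0 : (0 : ℝ) ≤ be := Nat.cast_nonneg _
  have hsupp : ∀ m : ℤ × ℤ, (g0.coeff g0.order).coeff m ≠ 0 →
      m.2 = 0 ∧ b + τ * m.1 ≤ g0.order ∧ b + -((1 - τ) * m.1) ≤ g0.order := by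
    rintro ⟨i, j⟩ hm
    refine ⟨?_, ?_, ?_⟩
    · by_contra hj
      apply hm
      have := hzero i j hj
      rw [← sl_coeff, this]
      rfl
    · by_contra h
      push Not at h
      apply hm
      rw [← sl_coeff]
      exact hlow1 i j _ h
    · by_contra h
      push Not at h
      apply hm
      rw [← sl_coeff]
      exact hlow2 i j _ h
  have hbo : b ≤ g0.order := by
    obtain ⟨m, hm⟩ : ∃ m, (g0.coeff g0.order).coeff m ≠ 0 := by
      by_contra h
      push Not at h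
      apply hne
      ext m
      rw [h m]
      simp
    obtain ⟨-, h2, h3⟩ := hsupp m hm
    rcases le_or_gt (0 : ℝ) m.1 with h | h
    · nlinarith
    · nlinarith
  have hoN : g0.order ≤ b + N := by nlinarith
  -- comparison
  have hdiff : Low (∑ i, incl (c i) * E (w i) - g0) (b + sg) := by
    rw [hg0, ← Finset.sum_sub_distrib]
    refine Low.sum _ _ fun l _ => ?_
    rw [← mul_sub]
    exact (hc l).incl.mul (hnear (w l))
  have hcoef : ∀ a, a < b + sg → (∑ i, incl (c i) * E (w i)).coeff a = g0.coeff a := by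
    intro a ha
    have := hdiff a ha
    rw [HahnSeries.coeff_sub, sub_eq_zero] at this
    exact this
  refine ⟨g0.order, hbo, hoN, ?_, ?_, ?_⟩
  · intro a ha
    rw [hcoef a (by linarith)]
    exact hlowo a ha
  · rw [hcoef _ (by linarith)]
    exact hne
  · intro m hm
    rw [hcoef _ (by linarith)] at hm
    obtain ⟨h2, h3, h4⟩ := hsupp m hm
    refine ⟨h2, ?_, ?_⟩
    · have h5 : -(m.1 : ℝ) ≤ be := by
        have : (1 - τ) * -(m.1 : ℝ) ≤ (1 - τ) * be := by linarith
        exact le_of_mul_le_mul_left this (by linarith)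
      nlinarith
    · have h5 : (m.1 : ℝ) ≤ al := by
        have : τ * (m.1 : ℝ) ≤ τ * al := by linarith
        exact le_of_mul_le_mul_left this h0
      nlinarith

end row

/-- multiplication by a power of `H` -/
theorem LT.mul_pow {x H : HR F} {o e : ℝ} {T : Set (ℤ × ℤ)} (hx : LT x o T) (hH : Low H e)
    {q : F} (hq : q ≠ 0) (hH1 : H.coeff e = AddMonoidAlgebra.single ((0, 1) : ℤ × ℤ) q) (j : ℕ) :
    LT (x * H ^ j) (o + j * e) {m | (m.1, m.2 - j) ∈ T} := by
  have hc : (x * H ^ j).coeff (o + j * e) =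
      x.coeff o * AddMonoidAlgebra.single ((0, (j : ℤ)) : ℤ × ℤ) (q ^ j) := by
    rw [hx.low.coeff_mul (hH.pow j), hH.coeff_pow, hH1, AddMonoidAlgebra.single_pow]
    congr 2
    ext <;> simp
  have hcm : ∀ m : ℤ × ℤ, ((x * H ^ j).coeff (o + j * e)).coeff m =
      (x.coeff o).coeff (m.1, m.2 - j) * q ^ j := by
    intro m
    rw [hc]
    have h1 : m = ((m.1, m.2 - (j : ℤ)) : ℤ × ℤ) + ((0, (j : ℤ)) : ℤ × ℤ) := by
      ext <;> simp
    conv_lhs => rw [h1]
    exact AddMonoidAlgebra.coeff_mul_single_add _ _ _ _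
  refine ⟨hx.low.mul (hH.pow j), ?_, ?_⟩
  · obtain ⟨m, hm⟩ : ∃ m, (x.coeff o).coeff m ≠ 0 := by
      by_contra h
      push Not at h
      apply hx.ne
      ext m
      rw [h m]
      simp
    intro h
    have h2 := hcm (m.1, m.2 + j)
    rw [h] at h2
    simp only [AddMonoidAlgebra.coeff_zero, Finsupp.coe_zero, Pi.zero_apply,
      add_sub_cancel_right] at h2
    exact mul_ne_zero hm (pow_ne_zero _ hq) h2.symm
  · intro m hm
    rw [hcm] at hm
    exact hx.supp _ (left_ne_zero_of_mul hm)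

end Pool.Agent.TH978.SF
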